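import Pool.Agent.W443.J5.Stms

set_option autoImplicit false

/-!
# Number of terms of powers of univariate polynomials
-/

universe u

namespace Pool.Agent.W460.J5

open Pool.Agent.W443.J5
open Polynomial

variable {k : Type u} [Field k]

/-- the second lowest coefficient of a power -/
theorem coeff_low (f : k[X]) (d s : ℕ) (hd : 1 ≤ d) (h0 : ∀ i, 0 < i → i < d → f.coeff i = 0) :
    (f ^ s).coeff d = s * f.coeff 0 ^ (s - 1) * f.coeff d := by
  have hdvd : X ^ d ∣ f - C (f.coeff 0) := by
    rw [X_pow_dvd_iff]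
    intro i hi
    rcases Nat.eq_zero_or_pos i with rfl | hpos
    · simp
    · rw [coeff_sub, coeff_C_of_ne_zero hpos.ne', sub_zero, h0 i hpos hi]
  obtain ⟨τ, hτ⟩ := hdvd
  have hf : f = C (f.coeff 0) + X ^ d * τ := by rw [← hτ]; ring
  have hτ0 : τ.coeff 0 = f.coeff d := by
    have := congrArg (fun p => coeff p d) hτ
    simp only [coeff_sub, coeff_C_of_ne_zero (by omega : d ≠ 0), sub_zero] at this
    rw [this]
    have h2 := coeff_X_pow_mul τ d 0
    rw [zero_add] at h2
    exact h2.symm
  obtain ⟨q, hq⟩ := Polynomial.powAddExpansion (C (f.coeff 0)) (X ^ d * τ) s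
  rw [← hf] at hq
  rw [hq, coeff_add, coeff_add]
  have e1 : (C (f.coeff 0) ^ s).coeff d = 0 := by
    rw [← C_pow, coeff_C_of_ne_zero (by omega)]
  have e2 : (q * (X ^ d * τ) ^ 2).coeff d = 0 := by
    have : q * (X ^ d * τ) ^ 2 = (q * τ ^ 2) * X ^ (2 * d) := by ring
    rw [this, coeff_mul_X_pow', if_neg (by omega)]
  have e3 : ((s : k[X]) * C (f.coeff 0) ^ (s - 1) * (X ^ d * τ)).coeff d =
      s * f.coeff 0 ^ (s - 1) * f.coeff d := by
    have : (s : k[X]) * C (f.coeff 0) ^ (s - 1) * (X ^ d * τ) =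
        C ((s : k) * f.coeff 0 ^ (s - 1)) * (X ^ d * τ) := by
      rw [C_mul, C_pow, map_natCast]
    rw [this, coeff_C_mul, ← hτ0]
    have h2 := coeff_X_pow_mul τ d 0
    rw [zero_add] at h2
    rw [h2]
  rw [e1, e2, e3, zero_add, add_zero]

/-- the lowest positive exponent -/
theorem exists_low (f : k[X]) (E : ℕ) (hE : 1 ≤ E) (hf : f.coeff E ≠ 0) :
    ∃ d, 1 ≤ d ∧ d ≤ E ∧ f.coeff d ≠ 0 ∧ ∀ i, 0 < i → i < d → f.coeff i = 0 := by
  classical
  have hex : ∃ d, 1 ≤ d ∧ f.coeff d ≠ 0 := ⟨E, hE, hf⟩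
  refine ⟨Nat.find hex, (Nat.find_spec hex).1, Nat.find_min' hex ⟨hE, hf⟩,
    (Nat.find_spec hex).2, fun i hi hlt => ?_⟩
  by_contra hcon
  exact Nat.find_min hex hlt ⟨hi, hcon⟩

theorem reverse_pow' (f : k[X]) (s : ℕ) : (f ^ s).reverse = f.reverse ^ s := by
  induction s with
  | zero => rw [pow_zero, pow_zero, ← C_1, reverse_C]
  | succ s ih => rw [pow_succ, reverse_mul_of_domain, ih, pow_succ]

theorem uni : S_UNI.{u} := by
  intro k _ _ κ ρ s hκ hs
  classical
  by_cases hρ : ρ = 0
  · have : (C κ * ρ ^ s).support = ∅ := by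
      rw [hρ, zero_pow (by omega), mul_zero, support_zero]
    rw [this]
    simp
  -- remove the monomial factor
  obtain ⟨a, f, hf, hf0⟩ : ∃ (a : ℕ) (f : k[X]), ρ = X ^ a * f ∧ f.coeff 0 ≠ 0 := by
    have hdvd : X ^ ρ.natTrailingDegree ∣ ρ := by
      rw [X_pow_dvd_iff]
      intro i hi
      exact coeff_eq_zero_of_lt_natTrailingDegree hi
    obtain ⟨f, hf⟩ := hdvd
    refine ⟨ρ.natTrailingDegree, f, hf, ?_⟩
    have h1 : ρ.coeff ρ.natTrailingDegree ≠ 0 := by
      rw [← trailingCoeff, Ne, trailingCoeff_eq_zero]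
      exact hρ
    have h2 := coeff_X_pow_mul f ρ.natTrailingDegree 0
    rw [zero_add] at h2
    rw [← h2, ← hf]
    exact h1
  have hφ : ∀ i, (C κ * ρ ^ s).coeff (i + a * s) = κ * (f ^ s).coeff i := by
    intro i
    rw [coeff_C_mul, hf, mul_pow, ← pow_mul, coeff_X_pow_mul]
  have hcard : ∀ A : Finset ℕ, (∀ i ∈ A, (f ^ s).coeff i ≠ 0) →
      A.card ≤ (C κ * ρ ^ s).support.card := by
    intro A hA
    rw [← Finset.card_image_of_injective A (add_left_injective (a * s))]
    refine Finset.card_le_card fun j hj => ?_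
    obtain ⟨i, hi, rfl⟩ := Finset.mem_image.1 hj
    rw [mem_support_iff]
    rw [hφ]
    exact mul_ne_zero hκ (hA i hi)
  rcases Nat.eq_zero_or_pos f.natDegree with hE | hE
  · -- a monomial
    have hc : (C κ * ρ ^ s).support.card ≤ 1 := by
      have h1 : C κ * ρ ^ s = C (κ * f.coeff 0 ^ s) * X ^ (a * s) := by
        rw [hf, eq_C_of_natDegree_eq_zero hE, coeff_C_zero, mul_pow, ← pow_mul, C_mul, C_pow]
        ring
      rw [h1]
      refine (Finset.card_le_card (support_C_mul_X_pow_subset _ _)).trans ?_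
      rw [Finset.card_singleton]
    exact ⟨fun h => by omega, fun h => by omega⟩
  -- the exponents
  have hlead : f.coeff f.natDegree ≠ 0 := by
    rw [coeff_natDegree, Ne, leadingCoeff_eq_zero]
    intro h
    rw [h] at hf0
    exact hf0 (coeff_zero 0)
  obtain ⟨d, hd1, hdE, hd2, hd3⟩ := exists_low f f.natDegree hE hlead
  have hrE : f.reverse.coeff f.natDegree ≠ 0 := by
    rw [coeff_reverse, revAt_le le_rfl, Nat.sub_self]
    exact hf0
  obtain ⟨d', hd1', hdE', hd2', hd3'⟩ := exists_low f.reverse f.natDegree hE hrE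
  have hs0 : (s : k) ≠ 0 := Nat.cast_ne_zero.2 (by omega)
  have c0 : (f ^ s).coeff 0 ≠ 0 := by
    rw [coeff_zero_eq_eval_zero, eval_pow, ← coeff_zero_eq_eval_zero]
    exact pow_ne_zero _ hf0
  have c1 : (f ^ s).coeff d ≠ 0 := by
    rw [coeff_low f d s hd1 hd3]
    exact mul_ne_zero (mul_ne_zero hs0 (pow_ne_zero _ hf0)) hd2
  have hdeg : (f ^ s).natDegree = s * f.natDegree := natDegree_pow f s
  have hle : 2 * f.natDegree ≤ s * f.natDegree := Nat.mul_le_mul_right _ hs
  have c3 : (f ^ s).coeff (s * f.natDegree) ≠ 0 := by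
    rw [← hdeg, coeff_natDegree, leadingCoeff_pow]
    exact pow_ne_zero _ hlead
  have c2 : (f ^ s).coeff (s * f.natDegree - d') ≠ 0 := by
    have h1 : (f ^ s).reverse.coeff d' ≠ 0 := by
      rw [reverse_pow', coeff_low f.reverse d' s hd1' hd3', coeff_zero_reverse]
      exact mul_ne_zero (mul_ne_zero hs0 (pow_ne_zero _ hlead)) hd2'
    rw [coeff_reverse, hdeg, revAt_le (by omega)] at h1
    exact h1
  constructor
  · intro _
    have h1 : ({0, d, s * f.natDegree} : Finset ℕ).card = 3 :=
      Finset.card_eq_three.2 ⟨0, d, s * f.natDegree, by omega, by omega, by omega, rfl⟩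
    rw [← h1]
    refine hcard _ fun i hi => ?_
    simp only [Finset.mem_insert, Finset.mem_singleton] at hi
    rcases hi with rfl | rfl | rfl
    · exact c0
    · exact c1
    · exact c3
  · intro h3 h0
    have ha : a = 0 := by
      by_contra hne
      apply h0
      rw [coeff_C_mul, hf, mul_pow, ← pow_mul, coeff_X_pow_mul', if_neg, mul_zero]
      have : 0 < a * s := Nat.mul_pos (Nat.pos_of_ne_zero hne) (by omega)
      omega
    have hds : d = s * f.natDegree - d' := by
      by_contra hne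
      have h1 : ({0, d, s * f.natDegree - d', s * f.natDegree} : Finset ℕ).card = 4 := by
        rw [Finset.card_insert_of_notMem, Finset.card_eq_three.2
          ⟨d, s * f.natDegree - d', s * f.natDegree, hne, by omega, by omega, rfl⟩]
        simp only [Finset.mem_insert, Finset.mem_singleton]
        omega
      have h2 := hcard _ (fun i (hi : i ∈ ({0, d, s * f.natDegree - d', s * f.natDegree} :
        Finset ℕ)) => by
          simp only [Finset.mem_insert, Finset.mem_singleton] at hi
          rcases hi with rfl | rfl | rfl | rfl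
          · exact c0
          · exact c1
          · exact c2
          · exact c3)
      omega
    have hs2 : s = 2 := by
      by_contra hne
      have : 3 * f.natDegree ≤ s * f.natDegree := Nat.mul_le_mul_right _ (by omega)
      omega
    subst hs2
    have hdE2 : d = f.natDegree := by omega
    refine ⟨f.coeff 0, f.coeff d, d, hf0, hd2, hd1, ?_⟩
    have hfe : f = C (f.coeff 0) + C (f.coeff d) * X ^ d := by
      ext i
      rw [coeff_add, coeff_C_mul, coeff_X_pow]
      rcases Nat.eq_zero_or_pos i with rfl | hi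
      · rw [coeff_C_zero, if_neg (by omega), mul_zero, add_zero]
      · rw [coeff_C_of_ne_zero hi.ne', zero_add]
        rcases lt_trichotomy i d with h | h | h
        · rw [hd3 i hi h, if_neg h.ne, mul_zero]
        · rw [h, if_pos rfl, mul_one]
        · rw [if_neg h.ne', mul_zero]
          exact coeff_eq_zero_of_natDegree_lt (by omega)
    rw [← hfe, hf, ha, pow_zero, one_mul]

end Pool.Agent.W460.J5
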